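import Mathlib
import Pool.Agent.PPS.Bridge
import Pool.Agent.H87.HC.Enc
import Pool.Agent.H87.HC.AlgoPT

/-!
# Hamiltonian cycle on graphs without two disjoint long-H subgraphs is in P
-/

namespace Pool.Agent.Results.MP_d9c92b_lc.PolyTime

open Pool.Agent.PPS SimpleGraph H87.HC

/-- The set of the words which present a graph that contains no two vertex-disjoint long-`H`s
as a subgraph and that has a Hamiltonian cycle is decidable in polynomial time; on words which
present graphs of the class, membership in this set is the existence of a Hamiltonian cycle. -/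
theorem result :
    HamTwoLongHFree ∈ P ∧
      ∀ (n : ℕ) (G : SimpleGraph (Fin n)), (longH ⊕g longH).Free G →
        (encode G ∈ HamTwoLongHFree ↔ HasHamiltonianCycle G) := by
  classical
  refine ⟨?_, ?_⟩
  · rw [mem_P_iff]
    refine PT.of_eq (PT.decB' small) (fun w => ?_)
    rw [Bool.eq_iff_iff, decide_eq_true_iff]
    exact decB_iff.symm
  · intro n G hG
    constructor
    · rintro ⟨n', G', h, _, h2⟩
      have hn : n = n' := by
        rw [← lead_encode G, h, lead_encode]
      subst hn
      have hGG : G = G' := by
        rw [← gr_edgesOf G, h, gr_edgesOf]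
      rwa [hGG]
    · intro h
      exact ⟨n, G, rfl, hG, h⟩

end Pool.Agent.Results.MP_d9c92b_lc.PolyTime
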